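import Mathlib

set_option autoImplicit false
open MeasureTheory

namespace Pool.Agent.H70A

variable {n : ℕ}

/-- squared norm -/
noncomputable def S (z : Fin n → ℂ) : ℝ := ∑ j, ‖z j‖ ^ 2
/-- hermitian product, linear in the first argument -/
noncomputable def ip (w z : Fin n → ℂ) : ℂ := ∑ j, w j * starRingEnd ℂ (z j)

noncomputable def phi (z w : Fin n → ℂ) : Fin n → ℂ :=
  (1 - ip w z)⁻¹ • (z - (ip w z / ip z z) • z
    - ((Real.sqrt (1 - S z) : ℝ) : ℂ) • (w - (ip w z / ip z z) • z))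

lemma S_nonneg (z : Fin n → ℂ) : 0 ≤ S z := Finset.sum_nonneg (fun j _ => by positivity)

lemma ip_eq_inner (w z : Fin n → ℂ) :
    ip w z = inner ℂ (WithLp.toLp 2 z : EuclideanSpace ℂ (Fin n)) (WithLp.toLp 2 w) := by
  simp [ip, PiLp.inner_apply]

lemma S_eq_norm (z : Fin n → ℂ) : S z = ‖(WithLp.toLp 2 z : EuclideanSpace ℂ (Fin n))‖ ^ 2 := by
  simp [S, EuclideanSpace.norm_sq_eq]

lemma S_smul (c : ℂ) (z : Fin n → ℂ) : S (c • z) = ‖c‖ ^ 2 * S z := by
  simp [S, mul_pow, Finset.mul_sum]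

lemma S_sub (x y : Fin n → ℂ) : S (x - y) = S x + S y - 2 * (ip x y).re := by
  rw [S_eq_norm, S_eq_norm, S_eq_norm, ip_eq_inner, WithLp.toLp_sub, @norm_sub_sq ℂ, inner_re_symm]
  simp
  ring

lemma S_add (x y : Fin n → ℂ) : S (x + y) = S x + S y + 2 * (ip x y).re := by
  rw [S_eq_norm, S_eq_norm, S_eq_norm, ip_eq_inner, WithLp.toLp_add, @norm_add_sq ℂ, inner_re_symm]
  simp
  ring

lemma ip_self (z : Fin n → ℂ) : ip z z = (S z : ℂ) := by
  simp only [ip, S, Complex.mul_conj]
  push_cast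
  congr 1
  ext j
  rw [Complex.normSq_eq_norm_sq]
  push_cast
  rfl

lemma ip_smul_left (c : ℂ) (x y : Fin n → ℂ) : ip (c • x) y = c * ip x y := by
  simp [ip, Finset.mul_sum, mul_assoc]

lemma ip_smul_right (c : ℂ) (x y : Fin n → ℂ) : ip x (c • y) = starRingEnd ℂ c * ip x y := by
  simp only [ip, Finset.mul_sum, Pi.smul_apply, smul_eq_mul, map_mul]
  congr 1; ext j; ring

lemma ip_sub_left (x y z : Fin n → ℂ) : ip (x - y) z = ip x z - ip y z := by
  simp [ip, Finset.sum_sub_distrib, sub_mul]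

lemma ip_conj (x y : Fin n → ℂ) : starRingEnd ℂ (ip x y) = ip y x := by
  simp only [ip, map_sum, map_mul, Complex.conj_conj]
  congr 1; ext j; ring

lemma norm_ip_le (w z : Fin n → ℂ) : ‖ip w z‖ ^ 2 ≤ S w * S z := by
  rw [ip_eq_inner, S_eq_norm, S_eq_norm, ← mul_pow]
  have h := norm_inner_le_norm (𝕜 := ℂ) (WithLp.toLp 2 z : EuclideanSpace ℂ (Fin n)) (WithLp.toLp 2 w)
  have h2 : ‖inner ℂ (WithLp.toLp 2 z : EuclideanSpace ℂ (Fin n)) (WithLp.toLp 2 w)‖ ≤
    ‖(WithLp.toLp 2 w : EuclideanSpace ℂ (Fin n))‖ * ‖(WithLp.toLp 2 z : EuclideanSpace ℂ (Fin n))‖ := by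
    rw [mul_comm]; exact h
  gcongr

lemma S_eq_zero {z : Fin n → ℂ} (h : S z = 0) : z = 0 := by
  rw [S_eq_norm] at h
  have : ‖(WithLp.toLp 2 z : EuclideanSpace ℂ (Fin n))‖ = 0 := by
    exact pow_eq_zero_iff (two_ne_zero) |>.1 h
  rw [norm_eq_zero] at this
  have h2 := congrArg (WithLp.ofLp) this
  simpa using h2

/-- the basic identity -/
lemma key (z w : Fin n → ℂ) (hz : S z < 1) (hw : ip w z ≠ 1) :
    1 - S (phi z w) = (1 - S z) * (1 - S w) / ‖1 - ip w z‖ ^ 2 := by
  set a : ℂ := ip w z / ip z z with ha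
  have hc : ip w z = a * (S z : ℂ) := by
    by_cases h0 : S z = 0
    · have hz0 := S_eq_zero h0
      rw [h0, hz0]; simp [ip]
    · rw [ha, ip_self]
      have : (S z : ℂ) ≠ 0 := by exact_mod_cast h0
      field_simp
  set Q : Fin n → ℂ := w - a • z with hQ
  have hQz : ip Q z = 0 := by
    rw [hQ, ip_sub_left, ip_smul_left, ip_self, hc]; ring
  have hzQ : ip z Q = 0 := by
    rw [← ip_conj, hQz]; simp
  have hSw : S w = ‖a‖ ^ 2 * S z + S Q := by
    have : w = a • z + Q := by rw [hQ]; abel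
    conv_lhs => rw [this]
    rw [S_add, S_smul, ip_smul_left, hzQ]; simp
  have hne : (1 - ip w z) ≠ 0 := sub_ne_zero.2 (Ne.symm hw)
  have hn2 : ‖1 - ip w z‖ ^ 2 ≠ 0 := by
    have := norm_ne_zero_iff.2 hne
    positivity
  have hphi : phi z w = (1 - ip w z)⁻¹ • ((1 - a) • z - ((Real.sqrt (1 - S z) : ℝ) : ℂ) • Q) := by
    rw [phi, ← ha, ← hQ, sub_smul, one_smul]
  have hS : S (phi z w) = (‖1 - a‖ ^ 2 * S z + (1 - S z) * S Q) / ‖1 - ip w z‖ ^ 2 := by
    rw [hphi, S_smul, S_sub, S_smul, S_smul, ip_smul_left, ip_smul_right, hzQ]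
    simp only [mul_zero, Complex.zero_re, sub_zero, norm_inv]
    have : ‖((Real.sqrt (1 - S z) : ℝ) : ℂ)‖ ^ 2 = 1 - S z := by
      rw [Complex.norm_real, Real.norm_of_nonneg (Real.sqrt_nonneg _), Real.sq_sqrt (by linarith)]
    rw [this]
    field_simp
  rw [hS, eq_div_iff hn2, sub_mul, div_mul_cancel₀ _ hn2, one_mul, hSw, hc]
  have e1 : ‖1 - a * (S z : ℂ)‖ ^ 2 = (1 - a.re * S z) ^ 2 + (a.im * S z) ^ 2 := by
    rw [← Complex.normSq_eq_norm_sq, Complex.normSq_apply]
    simp
    ring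
  have e2 : ‖1 - a‖ ^ 2 = (1 - a.re) ^ 2 + a.im ^ 2 := by
    rw [← Complex.normSq_eq_norm_sq, Complex.normSq_apply]
    simp
    ring
  have e3 : ‖a‖ ^ 2 = a.re ^ 2 + a.im ^ 2 := by
    rw [← Complex.normSq_eq_norm_sq, Complex.normSq_apply]
    ring
  rw [e1, e2, e3]
  ring

/-- slowly oscillating profile, as a function of the squared norm -/
noncomputable def g (t : ℝ) : ℝ := t * Real.sin (Real.log (1 - Real.log (1 - t)))

/-- the phase -/
noncomputable def th (t : ℝ) : ℝ := Real.log (1 - Real.log (1 - t))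

lemma g_eq (t : ℝ) : g t = t * Real.sin (th t) := rfl

lemma S_phi_nonneg (z w : Fin n → ℂ) : 0 ≤ S (phi z w) := S_nonneg _

lemma ip_norm_le (z w : Fin n → ℂ) (hw : S w < 1) : ‖ip w z‖ ≤ Real.sqrt (S z) := by
  apply Real.le_sqrt_of_sq_le
  have h := norm_ip_le w z
  have := S_nonneg z
  have := S_nonneg w
  nlinarith

lemma ip_ne_one (z w : Fin n → ℂ) (hz : S z < 1) (hw : S w < 1) : ip w z ≠ 1 := by
  intro h
  have h1 := ip_norm_le z w hw
  rw [h] at h1
  simp at h1
  have : Real.sqrt (S z) < 1 := by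
    rw [Real.sqrt_lt' one_pos]; simpa using hz
  linarith

lemma S_phi_lt (z w : Fin n → ℂ) (hz : S z < 1) (hw : S w < 1) : S (phi z w) < 1 := by
  have h := key z w hz (ip_ne_one z w hz hw)
  have hne : (1 - ip w z) ≠ 0 := sub_ne_zero.2 (Ne.symm (ip_ne_one z w hz hw))
  have : 0 < ‖1 - ip w z‖ := norm_pos_iff.2 hne
  have h2 : 0 < (1 - S z) * (1 - S w) / ‖1 - ip w z‖ ^ 2 := by
    have : 0 < 1 - S z := by linarith
    have : 0 < 1 - S w := by linarith
    positivity
  linarith

/-- the phase is asymptotically unchanged -/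
lemma asymp (z : Fin n → ℂ) (hz : S z < 1) (ε : ℝ) (hε : 0 < ε) :
    ∀ᶠ r in nhdsWithin (1 : ℝ) (Set.Iio 1), ∀ w : Fin n → ℂ, S w = r ^ 2 →
      |g (S (phi z w)) - Real.sin (th (r ^ 2))| ≤ ε := by
  set s := Real.sqrt (S z) with hs
  have hs0 : 0 ≤ s := Real.sqrt_nonneg _
  have hs1 : s < 1 := by rw [hs, Real.sqrt_lt' one_pos]; simpa using hz
  have hN : 0 < 1 - S z := by linarith
  set K : ℝ := |Real.log (1 - S z)| + 2 * (|Real.log (1 - s)| + Real.log 2) with hK
  have hlog2 : 0 < Real.log 2 := Real.log_pos (by norm_num)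
  have hK0 : 0 < K := by
    have := abs_nonneg (Real.log (1 - S z))
    have := abs_nonneg (Real.log (1 - s))
    rw [hK]; linarith
  -- T r → ∞
  have hlim : Filter.Tendsto (fun r : ℝ => 1 - r ^ 2) (nhdsWithin (1 : ℝ) (Set.Iio 1))
      (nhdsWithin 0 (Set.Ioi 0)) := by
    apply tendsto_nhdsWithin_of_tendsto_nhds_of_eventually_within
    · have : Filter.Tendsto (fun r : ℝ => 1 - r ^ 2) (nhds 1) (nhds (1 - 1 ^ 2)) := by
        apply Continuous.tendsto; fun_prop
      simp only [one_pow, sub_self] at this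
      exact this.mono_left nhdsWithin_le_nhds
    · have h1 : ∀ᶠ r in nhdsWithin (1 : ℝ) (Set.Iio 1), (0 : ℝ) < r :=
        nhdsWithin_le_nhds (lt_mem_nhds (by norm_num))
      filter_upwards [h1, self_mem_nhdsWithin] with r hr hr1
      simp only [Set.mem_Iio, Set.mem_Ioi] at *
      nlinarith
  have hT : Filter.Tendsto (fun r : ℝ => 1 - Real.log (1 - r ^ 2)) (nhdsWithin (1 : ℝ) (Set.Iio 1))
      Filter.atTop := by
    have h1 : Filter.Tendsto (fun r : ℝ => Real.log (1 - r ^ 2)) (nhdsWithin (1 : ℝ) (Set.Iio 1))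
      Filter.atBot := Real.tendsto_log_nhdsGT_zero.comp hlim
    have h2 := Filter.tendsto_neg_atBot_atTop.comp h1
    have h3 := Filter.tendsto_atTop_add_const_left _ (1 : ℝ) h2
    refine h3.congr (fun r => ?_)
    simp [sub_eq_add_neg]
  have hD : Filter.Tendsto (fun r : ℝ => (1 - r ^ 2) / (1 - s) ^ 2) (nhdsWithin (1 : ℝ) (Set.Iio 1))
      (nhds 0) := by
    have := (hlim.mono_right nhdsWithin_le_nhds).div_const ((1 - s) ^ 2)
    simpa using this
  have h0 : ∀ᶠ r in nhdsWithin (1 : ℝ) (Set.Iio 1), (0 : ℝ) < r :=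
    nhdsWithin_le_nhds (lt_mem_nhds (by norm_num))
  have h1 := hT.eventually (Filter.eventually_ge_atTop (K + 1 + 2 * K / ε))
  have h2 := hD.eventually (gt_mem_nhds (show (0 : ℝ) < ε / 2 by positivity))
  filter_upwards [h0, self_mem_nhdsWithin, h1, h2] with r hr0 hr1 hTr hDr w hw
  simp only [Set.mem_Iio] at hr1
  have hw1 : S w < 1 := by rw [hw]; nlinarith
  have hne := ip_ne_one z w hz hw1
  have hkey := key z w hz hne
  set c := ip w z with hc
  have hcs : ‖c‖ ≤ s := ip_norm_le z w hw1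
  have hlow : 1 - s ≤ ‖1 - c‖ := by
    have h := norm_sub_norm_le (1 : ℂ) c
    simp at h; linarith
  have hup : ‖1 - c‖ ≤ 2 := by
    have h := norm_sub_le (1 : ℂ) c
    simp at h; linarith
  have hpos : 0 < ‖1 - c‖ := by linarith
  have hr2 : 0 < 1 - r ^ 2 := by nlinarith
  set D : ℝ := 1 - S (phi z w) with hDdef
  have hDpos : 0 < D := by
    have := S_phi_lt z w hz hw1
    rw [hDdef]; linarith
  have hD1 : D ≤ 1 := by
    have := S_nonneg (phi z w)
    rw [hDdef]; linarith
  rw [hw] at hkey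
  have hDle : D ≤ ε / 2 := by
    rw [hkey]
    refine le_trans ?_ hDr.le
    have : (1 - S z) * (1 - r ^ 2) ≤ 1 - r ^ 2 := by
      have := S_nonneg z
      nlinarith
    have h3 : (1 - s) ^ 2 ≤ ‖1 - c‖ ^ 2 := by
      apply pow_le_pow_left₀ (by linarith) hlow
    have h4 : 0 < (1 - s) ^ 2 := by
      have : 0 < 1 - s := by linarith
      positivity
    gcongr
  have hlogD : Real.log D = Real.log (1 - S z) + Real.log (1 - r ^ 2) - 2 * Real.log ‖1 - c‖ := by
    rw [hkey, Real.log_div (by positivity) (by positivity), Real.log_mul hN.ne' hr2.ne', Real.log_pow]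
    norm_num
  set T : ℝ := 1 - Real.log (1 - r ^ 2) with hTdef
  set T' : ℝ := 1 - Real.log D with hT'def
  have hlc : |Real.log ‖1 - c‖| ≤ |Real.log (1 - s)| + Real.log 2 := by
    rw [abs_le]
    constructor
    · have h5 : Real.log (1 - s) ≤ Real.log ‖1 - c‖ := Real.log_le_log (by linarith) hlow
      have := neg_abs_le (Real.log (1 - s))
      linarith
    · have h5 : Real.log ‖1 - c‖ ≤ Real.log 2 := Real.log_le_log hpos hup
      have := abs_nonneg (Real.log (1 - s))
      linarith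
  have hTT : |T' - T| ≤ K := by
    have : T' - T = - Real.log (1 - S z) + 2 * Real.log ‖1 - c‖ := by
      rw [hT'def, hTdef, hlogD]; ring
    rw [this]
    calc |- Real.log (1 - S z) + 2 * Real.log ‖1 - c‖|
        ≤ |- Real.log (1 - S z)| + |2 * Real.log ‖1 - c‖| := abs_add_le _ _
      _ = |Real.log (1 - S z)| + 2 * |Real.log ‖1 - c‖| := by
          rw [abs_neg, abs_mul]; simp
      _ ≤ K := by rw [hK]; linarith
  have hab := abs_le.1 hTT
  have hKe : 0 < 2 * K / ε := by positivity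
  have hTpos : 0 < T := by linarith
  have hT'pos : 2 * K / ε < T' := by linarith
  have hT'pos' : 0 < T' := by linarith
  have hdiff : |Real.log T' - Real.log T| ≤ ε / 2 := by
    rw [abs_le]
    constructor
    · -- log T - log T' ≤ (T - T')/T'
      have h6 : Real.log T - Real.log T' ≤ (T - T') / T' := by
        rw [← Real.log_div hTpos.ne' hT'pos'.ne']
        have := Real.log_le_sub_one_of_pos (show 0 < T / T' by positivity)
        refine this.trans (le_of_eq ?_)
        field_simp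
      have h7 : (T - T') / T' ≤ ε / 2 := by
        rw [div_le_iff₀ hT'pos']
        have : K < ε / 2 * T' := by
          rw [div_lt_iff₀ hε] at hT'pos
          linarith
        linarith
      linarith
    · have h6 : Real.log T' - Real.log T ≤ (T' - T) / T := by
        rw [← Real.log_div hT'pos'.ne' hTpos.ne']
        have := Real.log_le_sub_one_of_pos (show 0 < T' / T by positivity)
        refine this.trans (le_of_eq ?_)
        field_simp
      have h7 : (T' - T) / T ≤ ε / 2 := by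
        rw [div_le_iff₀ hTpos]
        have : K < ε / 2 * T := by
          have h8 : 2 * K / ε < T := by linarith
          rw [div_lt_iff₀ hε] at h8
          linarith
        linarith
      linarith
  have e1 : g (S (phi z w)) = (1 - D) * Real.sin (Real.log T') := by
    rw [g]
    have : S (phi z w) = 1 - D := by rw [hDdef]; ring
    rw [this, hT'def]
    congr 4
    ring
  have e2 : th (r ^ 2) = Real.log T := rfl
  rw [e1, e2]
  have e3 : (1 - D) * Real.sin (Real.log T') - Real.sin (Real.log T) =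
    (Real.sin (Real.log T') - Real.sin (Real.log T)) - D * Real.sin (Real.log T') := by ring
  rw [e3]
  calc |(Real.sin (Real.log T') - Real.sin (Real.log T)) - D * Real.sin (Real.log T')|
      ≤ |Real.sin (Real.log T') - Real.sin (Real.log T)| + |D * Real.sin (Real.log T')| := abs_sub _ _
    _ ≤ |Real.log T' - Real.log T| + D * 1 := by
        refine add_le_add (Real.abs_sin_sub_sin_le _ _) ?_
        rw [abs_mul, abs_of_pos hDpos]
        exact mul_le_mul_of_nonneg_left (Real.abs_sin_le_one _) hDpos.le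
    _ ≤ ε := by linarith

/-- radii with prescribed phase -/
lemma phase (α : ℝ) (hα : 0 < α) : ∃ᶠ r in nhdsWithin (1 : ℝ) (Set.Iio 1),
    Real.sin (th (r ^ 2)) = Real.sin α := by
  have hk : ∀ k : ℕ, 1 < Real.exp (α + k * (2 * Real.pi)) := by
    intro k
    rw [Real.one_lt_exp_iff]
    have := Real.pi_pos
    positivity
  have h1 : Filter.Tendsto (fun k : ℕ => Real.exp (α + k * (2 * Real.pi))) Filter.atTop Filter.atTop := by
    apply Real.tendsto_exp_atTop.comp
    apply Filter.tendsto_atTop_add_const_left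
    exact (tendsto_natCast_atTop_atTop).atTop_mul_const (by positivity)
  have h2 : Filter.Tendsto (fun k : ℕ => 1 - Real.exp (α + k * (2 * Real.pi))) Filter.atTop Filter.atBot := by
    have := Filter.tendsto_atBot_add_const_left _ (1 : ℝ) (Filter.tendsto_neg_atTop_atBot.comp h1)
    refine this.congr (fun k => ?_)
    simp [sub_eq_add_neg]
  have h3 := Real.tendsto_exp_atBot.comp h2
  have h4 : Filter.Tendsto (fun k : ℕ => Real.sqrt (1 - Real.exp (1 - Real.exp (α + k * (2 * Real.pi)))))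
      Filter.atTop (nhds (Real.sqrt (1 - 0))) := by
    apply (Real.continuous_sqrt.tendsto _).comp
    exact h3.const_sub 1
  simp only [sub_zero, Real.sqrt_one] at h4
  have h5 : ∀ k : ℕ, 0 < 1 - Real.exp (1 - Real.exp (α + k * (2 * Real.pi))) := by
    intro k
    have : Real.exp (1 - Real.exp (α + k * (2 * Real.pi))) < 1 := by
      rw [Real.exp_lt_one_iff]
      have := hk k
      linarith
    linarith
  have h6 : Filter.Tendsto (fun k : ℕ => Real.sqrt (1 - Real.exp (1 - Real.exp (α + k * (2 * Real.pi)))))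
      Filter.atTop (nhdsWithin 1 (Set.Iio 1)) := by
    apply tendsto_nhdsWithin_of_tendsto_nhds_of_eventually_within _ h4
    refine Filter.Eventually.of_forall (fun k => ?_)
    simp only [Set.mem_Iio]
    rw [Real.sqrt_lt' one_pos]
    have := Real.exp_pos (1 - Real.exp (α + k * (2 * Real.pi)))
    linarith
  refine h6.frequently (Filter.Eventually.frequently (Filter.Eventually.of_forall (fun k => ?_)))
  rw [Real.sq_sqrt (h5 k).le, th]
  have : Real.log (1 - Real.log (1 - (1 - Real.exp (1 - Real.exp (α + k * (2 * Real.pi)))))) =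
      α + k * (2 * Real.pi) := by
    rw [sub_sub_cancel, Real.log_exp, sub_sub_cancel, Real.log_exp]
  rw [this]
  exact Real.sin_add_nat_mul_two_pi α k


lemma continuous_S : Continuous (S : (Fin n → ℂ) → ℝ) := by
  unfold S; fun_prop

lemma continuous_ip (z : Fin n → ℂ) : Continuous (fun w : Fin n → ℂ => ip w z) := by
  unfold ip; fun_prop

lemma measurable_phi (z : Fin n → ℂ) : Measurable (phi z) := by
  have h1 : Measurable (fun w : Fin n → ℂ => ip w z) := (continuous_ip z).measurable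
  unfold phi
  fun_prop

lemma measurable_g : Measurable g := by
  unfold g; fun_prop

lemma continuousAt_phi (z w : Fin n → ℂ) (h : ip w z ≠ 1) : ContinuousAt (phi z) w := by
  have h1 : ContinuousAt (fun w : Fin n → ℂ => ip w z) w := (continuous_ip z).continuousAt
  have h2 : ContinuousAt (fun w : Fin n → ℂ => (1 - ip w z)⁻¹) w := by
    apply ContinuousAt.inv₀
    · fun_prop
    · exact sub_ne_zero.2 (Ne.symm h)
  unfold phi
  fun_prop

lemma th_arg_pos {t : ℝ} (h0 : 0 ≤ t) (h1 : t < 1) : 1 ≤ 1 - Real.log (1 - t) := by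
  have := Real.log_nonpos (show 0 ≤ 1 - t by linarith) (by linarith)
  linarith

lemma continuousAt_g {t : ℝ} (h0 : 0 ≤ t) (h1 : t < 1) : ContinuousAt g t := by
  have h2 := th_arg_pos h0 h1
  unfold g
  apply ContinuousAt.mul continuousAt_id
  apply Real.continuous_sin.continuousAt.comp
  apply ContinuousAt.log
  · apply ContinuousAt.sub continuousAt_const
    apply ContinuousAt.log (by fun_prop)
    linarith
  · linarith

lemma abs_g_le {t : ℝ} (h0 : 0 ≤ t) : |g t| ≤ t := by
  rw [g, abs_mul, abs_of_nonneg h0]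
  have := Real.abs_sin_le_one (Real.log (1 - Real.log (1 - t)))
  nlinarith

section avg

variable {Ω : Type*} [MeasurableSpace Ω] (μ : Measure Ω) [IsProbabilityMeasure μ]
  (X : Ω → (Fin n → ℂ))

/-- spherical average of the test function -/
noncomputable def A (z : Fin n → ℂ) (r : ℝ) : ℝ := ∫ ω, g (S (phi z ((r : ℂ) • X ω))) ∂μ

omit [IsProbabilityMeasure μ] in
lemma aesm (hX : Measurable X) (z : Fin n → ℂ) (r : ℝ) :
    AEStronglyMeasurable (fun ω => g (S (phi z ((r : ℂ) • X ω)))) μ := by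
  apply Measurable.aestronglyMeasurable
  apply measurable_g.comp
  apply continuous_S.measurable.comp
  apply (measurable_phi z).comp
  fun_prop

lemma S_real_smul (r : ℝ) (x : Fin n → ℂ) : S ((r : ℂ) • x) = r ^ 2 * S x := by
  rw [S_smul, Complex.norm_real, Real.norm_eq_abs, sq_abs]

variable {X} (hX : Measurable X) (hS : ∀ᵐ ω ∂μ, S (X ω) = 1)
include hX hS

omit [IsProbabilityMeasure μ] in
lemma bnd (z : Fin n → ℂ) (hz : S z < 1) (r : ℝ) (hr : |r| < 1) :
    ∀ᵐ ω ∂μ, ‖g (S (phi z ((r : ℂ) • X ω)))‖ ≤ 1 := by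
  filter_upwards [hS] with ω hω
  have hw : S ((r : ℂ) • X ω) < 1 := by
    rw [S_real_smul, hω, mul_one]
    rw [← sq_abs]
    have := abs_nonneg r
    nlinarith
  have h1 := S_phi_lt z _ hz hw
  exact (abs_g_le (S_nonneg _)).trans h1.le

lemma A_cont (z : Fin n → ℂ) (hz : S z < 1) : ContinuousOn (A μ X z) (Set.Ioo 0 1) := by
  apply continuousOn_of_dominated (bound := fun _ => 1)
  · intro r _
    exact aesm μ X hX z r
  · intro r hr
    exact bnd μ hX hS z hz r (by rw [abs_of_pos hr.1]; exact hr.2)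
  · exact integrable_const _
  · filter_upwards [hS] with ω hω
    intro r hr
    apply ContinuousAt.continuousWithinAt
    have hw : S ((r : ℂ) • X ω) < 1 := by
      rw [S_real_smul, hω, mul_one]
      have := hr.1
      have := hr.2
      nlinarith
    have h1 := S_phi_lt z _ hz hw
    have h2 : ContinuousAt (fun r : ℝ => (r : ℂ) • X ω) r := by
      fun_prop
    have h3 : ContinuousAt (fun r : ℝ => phi z ((r : ℂ) • X ω)) r :=
      ContinuousAt.comp (f := fun r : ℝ => (r : ℂ) • X ω) (continuousAt_phi z _ (ip_ne_one z _ hz hw)) h2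
    have h4 : ContinuousAt (fun r : ℝ => S (phi z ((r : ℂ) • X ω))) r :=
      ContinuousAt.comp (f := fun r : ℝ => phi z ((r : ℂ) • X ω)) continuous_S.continuousAt h3
    exact ContinuousAt.comp (f := fun r : ℝ => S (phi z ((r : ℂ) • X ω)))
      (continuousAt_g (S_nonneg _) h1) h4

lemma A_asymp (z : Fin n → ℂ) (hz : S z < 1) (ε : ℝ) (hε : 0 < ε) :
    ∀ᶠ r in nhdsWithin (1 : ℝ) (Set.Iio 1), |A μ X z r - Real.sin (th (r ^ 2))| ≤ ε := by
  have h0 : ∀ᶠ r in nhdsWithin (1 : ℝ) (Set.Iio 1), (0 : ℝ) < r :=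
    nhdsWithin_le_nhds (lt_mem_nhds (by norm_num))
  filter_upwards [asymp z hz ε hε, h0, self_mem_nhdsWithin] with r hr hr0 hr1
  simp only [Set.mem_Iio] at hr1
  have hint : Integrable (fun ω => g (S (phi z ((r : ℂ) • X ω)))) μ :=
    Integrable.of_bound (aesm μ X hX z r) 1
      (bnd μ hX hS z hz r (by rw [abs_of_pos hr0]; exact hr1))
  have h1 : A μ X z r - Real.sin (th (r ^ 2)) =
      ∫ ω, (g (S (phi z ((r : ℂ) • X ω))) - Real.sin (th (r ^ 2))) ∂μ := by
    rw [integral_sub hint (integrable_const _)]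
    simp [A]
  rw [h1, ← Real.norm_eq_abs]
  have h2 : ∀ᵐ ω ∂μ, ‖g (S (phi z ((r : ℂ) • X ω))) - Real.sin (th (r ^ 2))‖ ≤ ε := by
    filter_upwards [hS] with ω hω
    apply hr
    rw [S_real_smul, hω, mul_one]
  have h3 := norm_integral_le_of_norm_le_const h2
  simpa using h3

/-- the one-radius property -/
lemma one_radius (z : Fin n → ℂ) (hz : S z < 1) :
    ∃ r : ℝ, 0 < r ∧ r < 1 ∧ A μ X z r = g (S z) := by
  have hg : |g (S z)| < 1 := (abs_g_le (S_nonneg z)).trans_lt hz
  rw [abs_lt] at hg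
  have hev := fun ε hε => A_asymp μ hX hS z hz ε hε
  have h0 : ∀ᶠ r in nhdsWithin (1 : ℝ) (Set.Iio 1), (0 : ℝ) < r :=
    nhdsWithin_le_nhds (lt_mem_nhds (by norm_num))
  have hlt : ∀ᶠ r in nhdsWithin (1 : ℝ) (Set.Iio 1), r < (1 : ℝ) := self_mem_nhdsWithin
  -- a radius where the average is larger
  obtain ⟨r1, hr1, hr1e, hr1p, hr1l⟩ := ((phase (Real.pi / 2) (by positivity)).and_eventually
    ((hev (1 - g (S z)) (by linarith)).and (h0.and hlt))).exists
  obtain ⟨r2, hr2, hr2e, hr2p, hr2l⟩ := ((phase (Real.pi / 2 + Real.pi) (by positivity)).and_eventually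
    ((hev (g (S z) + 1) (by linarith)).and (h0.and hlt))).exists
  rw [hr1, Real.sin_pi_div_two, abs_le] at hr1e
  rw [hr2, Real.sin_add_pi, Real.sin_pi_div_two, abs_le] at hr2e
  have hc := A_cont μ hX hS z hz
  have hpre : IsPreconnected (Set.Ioo (0 : ℝ) 1) := isPreconnected_Ioo
  have := hpre.intermediate_value (a := r2) (b := r1) ⟨hr2p, hr2l⟩ ⟨hr1p, hr1l⟩ hc
  obtain ⟨r, hr, hre⟩ := this (show g (S z) ∈ Set.Icc (A μ X z r2) (A μ X z r1) by
    constructor <;> linarith)
  exact ⟨r, hr.1, hr.2, hre⟩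

/-- failure of the mean value property at the centre -/
lemma not_harm : ∃ r : ℝ, 0 < r ∧ r < 1 ∧ A μ X 0 r ≠ g (S (0 : Fin n → ℂ)) := by
  have hS0 : S (0 : Fin n → ℂ) = 0 := by simp [S]
  have h0 : ∀ᶠ r in nhdsWithin (1 : ℝ) (Set.Iio 1), (0 : ℝ) < r :=
    nhdsWithin_le_nhds (lt_mem_nhds (by norm_num))
  have hlt : ∀ᶠ r in nhdsWithin (1 : ℝ) (Set.Iio 1), r < (1 : ℝ) := self_mem_nhdsWithin
  obtain ⟨r, hr, hrp, hrl⟩ := ((phase (Real.pi / 2) (by positivity)).and_eventually
    (h0.and hlt)).exists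
  rw [Real.sin_pi_div_two] at hr
  refine ⟨r, hrp, hrl, ?_⟩
  rw [hS0]
  have h1 : A μ X 0 r = r ^ 2 := by
    have h2 : ∀ᵐ ω ∂μ, g (S (phi 0 ((r : ℂ) • X ω))) = r ^ 2 := by
      filter_upwards [hS] with ω hω
      have hw : S ((r : ℂ) • X ω) = r ^ 2 := by rw [S_real_smul, hω, mul_one]
      have hip : ip ((r : ℂ) • X ω) 0 = 0 := by simp [ip]
      have h3 := key 0 ((r : ℂ) • X ω) (by rw [hS0]; norm_num) (by rw [hip]; norm_num)
      rw [hS0, hip, hw] at h3
      have h4 : S (phi 0 ((r : ℂ) • X ω)) = r ^ 2 := by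
        simp only [sub_zero, norm_one, one_pow, div_one, one_mul] at h3
        linarith
      rw [h4, g_eq, hr, mul_one]
    rw [A, integral_congr_ae h2]
    simp
  rw [h1, g]
  simp
  exact hrp.ne'

end avg


section ball

variable (n)

/-- the unit ball -/
def Bl : Set (Fin n → ℂ) := {x : Fin n → ℂ | S x < 1}

lemma isOpen_Bl : IsOpen (Bl n) := isOpen_lt continuous_S continuous_const

lemma Bl_subset : Bl n ⊆ Metric.ball 0 1 := by
  intro x hx
  rw [mem_ball_zero_iff, pi_norm_lt_iff one_pos]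
  intro i
  have h1 : ‖x i‖ ^ 2 ≤ S x := by
    unfold S
    exact Finset.single_le_sum (f := fun j => ‖x j‖ ^ 2) (fun j _ => by positivity) (Finset.mem_univ i)
  have h2 : S x < 1 := hx
  have h3 := norm_nonneg (x i)
  nlinarith

lemma vol_ne_top : volume (Bl n) ≠ ⊤ :=
  ((measure_mono (Bl_subset n)).trans_lt measure_ball_lt_top).ne

lemma vol_ne_zero : volume (Bl n) ≠ 0 := by
  refine (IsOpen.measure_pos volume (isOpen_Bl n) ⟨0, ?_⟩).ne'
  simp [Bl, S]

/-- normalised volume on the ball -/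
noncomputable def mu : Measure (Fin n → ℂ) := (volume (Bl n))⁻¹ • volume.restrict (Bl n)

instance : IsProbabilityMeasure (mu n) := by
  constructor
  simp only [mu, Measure.smul_apply, Measure.restrict_apply MeasurableSet.univ, Set.univ_inter, smul_eq_mul]
  exact ENNReal.inv_mul_cancel (vol_ne_zero n) (vol_ne_top n)

/-- radial projection -/
noncomputable def Xp (x : Fin n → ℂ) : Fin n → ℂ := (((Real.sqrt (S x))⁻¹ : ℝ) : ℂ) • x

lemma measurable_Xp : Measurable (Xp n) := by
  have : Measurable (S : (Fin n → ℂ) → ℝ) := continuous_S.measurable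
  unfold Xp
  fun_prop

lemma Xp_S (hn : 1 ≤ n) : ∀ᵐ x ∂(mu n), S (Xp n x) = 1 := by
  have : Nonempty (Fin n) := ⟨⟨0, hn⟩⟩
  have h1 : ∀ᵐ x ∂(volume : Measure (Fin n → ℂ)), x ≠ 0 := by
    rw [ae_iff]
    simp
  have h2 : ∀ᵐ x ∂(mu n), x ≠ 0 := by
    apply Measure.ae_smul_measure
    exact ae_restrict_of_ae h1
  filter_upwards [h2] with x hx
  have hS0 : S x ≠ 0 := fun h => hx (S_eq_zero h)
  have hS1 := S_nonneg x
  rw [Xp, S_smul, Complex.norm_real, norm_inv, Real.norm_of_nonneg (Real.sqrt_nonneg _), inv_pow,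
    Real.sq_sqrt hS1]
  exact inv_mul_cancel₀ hS0

lemma avg_eq (z : Fin n → ℂ) (r : ℝ) :
    ((volume (Bl n)).toReal : ℂ)⁻¹ * ∫ x in Bl n, (((g (S (phi z (((r / Real.sqrt (S x) : ℝ) : ℂ) • x)))) : ℝ) : ℂ)
      = ((A (mu n) (Xp n) z r : ℝ) : ℂ) := by
  have h1 : ∀ x : Fin n → ℂ, ((r / Real.sqrt (S x) : ℝ) : ℂ) • x = (r : ℂ) • Xp n x := by
    intro x
    rw [Xp, smul_smul]
    push_cast
    rfl
  simp_rw [h1]
  rw [A, mu, integral_smul_measure, integral_complex_ofReal]
  simp only [ENNReal.toReal_inv, smul_eq_mul]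
  push_cast
  rfl

end ball

end Pool.Agent.H70A
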